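import Mathlib

namespace Pool.Agent.Helper16.Griff

open MeasureTheory Real
open scoped Nat

/-- Density of the standard complex Gaussian. -/
noncomputable def dens (z : ℂ) : ℝ := Real.exp (-‖z‖ ^ 2) / Real.pi

theorem dens_pos (z : ℂ) : 0 < dens z := by unfold dens; positivity

theorem dens_cont : Continuous dens := by unfold dens; fun_prop

theorem integral_abs (q : ℕ) :
    ∫ z : ℂ, ‖z‖ ^ q * dens z = Real.Gamma (((q : ℝ) + 2) / 2) := by
  have h := Complex.integral_rpow_mul_exp_neg_rpow (p := 2) (q := (q : ℝ)) (by norm_num)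
    (by have : (0 : ℝ) ≤ q := Nat.cast_nonneg q
        linarith)
  have h2 : ∀ z : ℂ, ‖z‖ ^ q * dens z
      = (1 / Real.pi) * (‖z‖ ^ (q : ℝ) * Real.exp (-‖z‖ ^ (2 : ℝ))) := by
    intro z
    unfold dens
    rw [Real.rpow_natCast, Real.rpow_two]
    ring
  simp_rw [h2]
  rw [integral_const_mul, h]
  field_simp

theorem integrable_abs (q : ℕ) : Integrable (fun z : ℂ => ‖z‖ ^ q * dens z) := by
  apply Integrable.of_integral_ne_zero
  rw [integral_abs]
  exact (Real.Gamma_pos_of_pos (by positivity)).ne'

/-- The standard complex Gaussian measure. -/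
noncomputable def gm : Measure ℂ := volume.withDensity fun z => ENNReal.ofReal (dens z)

theorem dens_meas : Measurable fun z : ℂ => ENNReal.ofReal (dens z) :=
  (dens_cont.measurable).ennreal_ofReal

theorem integral_gm (f : ℂ → ℂ) : ∫ z, f z ∂gm = ∫ z, dens z • f z := by
  unfold gm
  rw [integral_withDensity_eq_integral_toReal_smul dens_meas
    (Filter.Eventually.of_forall fun _ => ENNReal.ofReal_lt_top)]
  refine integral_congr_ae (Filter.Eventually.of_forall fun z => ?_)
  simp only
  rw [ENNReal.toReal_ofReal (dens_pos z).le]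

theorem integrable_gm (f : ℂ → ℂ) : Integrable f gm ↔ Integrable (fun z => dens z • f z) := by
  unfold gm
  rw [integrable_withDensity_iff_integrable_smul' dens_meas
    (Filter.Eventually.of_forall fun _ => ENNReal.ofReal_lt_top)]
  have : (fun z => (ENNReal.ofReal (dens z)).toReal • f z) = fun z => dens z • f z := by
    funext z
    rw [ENNReal.toReal_ofReal (dens_pos z).le]
  rw [this]

theorem isProb : IsProbabilityMeasure gm := by
  constructor
  unfold gm
  rw [withDensity_apply _ MeasurableSet.univ, Measure.restrict_univ]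
  rw [← ofReal_integral_eq_lintegral_ofReal]
  · have h := integral_abs 0
    simp only [pow_zero, one_mul, Nat.cast_zero, zero_add] at h
    rw [h]
    norm_num
  · have h := integrable_abs 0
    simp only [pow_zero, one_mul] at h
    exact h
  · exact Filter.Eventually.of_forall fun z => (dens_pos z).le

theorem isOpenPos : gm.IsOpenPosMeasure := by
  have h : (volume : Measure ℂ) ≪ gm := by
    unfold gm
    apply withDensity_absolutelyContinuous'
    · exact dens_meas.aemeasurable
    · exact Filter.Eventually.of_forall fun z => by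
        rw [ne_eq, ENNReal.ofReal_eq_zero, not_le]
        exact dens_pos z
  exact h.isOpenPosMeasure

theorem integrable_mono (i j : ℕ) : Integrable (fun z : ℂ => star z ^ i * z ^ j) gm := by
  rw [integrable_gm]
  have h := integrable_abs (i + j)
  refine h.mono' ?_ ?_
  · apply Continuous.aestronglyMeasurable
    exact dens_cont.smul ((continuous_star.pow i).mul (continuous_id.pow j))
  · refine Filter.Eventually.of_forall fun z => ?_
    rw [norm_smul, Real.norm_of_nonneg (dens_pos z).le, norm_mul, norm_pow, norm_pow, norm_star,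
      ← pow_add, mul_comm]

theorem integral_diag (i : ℕ) : ∫ z : ℂ, star z ^ i * z ^ i ∂gm = (i ! : ℂ) := by
  rw [integral_gm]
  have h2 : ∀ z : ℂ, dens z • (star z ^ i * z ^ i) = ((‖z‖ ^ (2 * i) * dens z : ℝ) : ℂ) := by
    intro z
    rw [← mul_pow]
    have h3 : star z * z = ((‖z‖ ^ 2 : ℝ) : ℂ) := by
      rw [Complex.star_def, ← Complex.normSq_eq_conj_mul_self, Complex.normSq_eq_norm_sq]
    rw [h3, Complex.real_smul]
    push_cast
    rw [← pow_mul]
    ring
  simp_rw [h2]
  rw [integral_complex_ofReal, integral_abs]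
  have h4 : (((2 * i : ℕ) : ℝ) + 2) / 2 = (i : ℝ) + 1 := by push_cast; ring
  rw [h4, Real.Gamma_nat_eq_factorial]
  simp

theorem integral_off {i j : ℕ} (hij : i ≠ j) : ∫ z : ℂ, star z ^ i * z ^ j ∂gm = 0 := by
  rw [integral_gm]
  set θ : ℝ := Real.pi / ((j : ℝ) - i) with hθ
  have hne : ((j : ℝ) - i) ≠ 0 := by
    rw [sub_ne_zero]
    exact_mod_cast hij.symm
  set c : Circle := Circle.exp θ with hc
  have hmp : MeasurePreserving (rotation c) (volume : Measure ℂ) volume :=
    (rotation c).measurePreserving
  have h1 : ∫ z : ℂ, dens (rotation c z) • (star (rotation c z) ^ i * (rotation c z) ^ j)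
      = ∫ z : ℂ, dens z • (star z ^ i * z ^ j) :=
    hmp.integral_comp (rotation c).toHomeomorph.measurableEmbedding
      (fun z : ℂ => dens z • (star z ^ i * z ^ j))
  have h2 : ∀ z : ℂ, dens (rotation c z) • (star (rotation c z) ^ i * (rotation c z) ^ j)
      = - (dens z • (star z ^ i * z ^ j)) := by
    intro z
    have h3 : dens (rotation c z) = dens z := by
      unfold dens
      rw [LinearIsometryEquiv.norm_map]
    have h4 : star (c : ℂ) ^ i * (c : ℂ) ^ j = -1 := by
      rw [hc, Circle.coe_exp, Complex.star_def, ← Complex.exp_conj, ← Complex.exp_nat_mul,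
        ← Complex.exp_nat_mul, ← Complex.exp_add]
      have h5 : (i : ℂ) * (starRingEnd ℂ) ((θ : ℂ) * Complex.I) + (j : ℂ) * ((θ : ℂ) * Complex.I)
          = Real.pi * Complex.I := by
        rw [map_mul, Complex.conj_ofReal, Complex.conj_I, hθ]
        have h6 : ((j : ℂ) - i) ≠ 0 := by exact_mod_cast hne
        push_cast
        field_simp
        ring
      rw [h5, Complex.exp_pi_mul_I]
    rw [h3, rotation_apply, star_mul', mul_pow, mul_pow, ← smul_neg]
    congr 1
    calc star (c : ℂ) ^ i * star z ^ i * ((c : ℂ) ^ j * z ^ j)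
        = (star (c : ℂ) ^ i * (c : ℂ) ^ j) * (star z ^ i * z ^ j) := by ring
      _ = -(star z ^ i * z ^ j) := by rw [h4]; ring
  simp_rw [h2] at h1
  rw [integral_neg] at h1
  exact CharZero.neg_eq_self_iff.mp h1

theorem exists_gaussian_measure : ∃ μ : MeasureTheory.Measure ℂ,
    MeasureTheory.IsProbabilityMeasure μ ∧ μ.IsOpenPosMeasure ∧
    (∀ i j : ℕ, MeasureTheory.Integrable (fun z : ℂ => star z ^ i * z ^ j) μ) ∧
    ∀ i j : ℕ, ∫ z : ℂ, star z ^ i * z ^ j ∂μ = if i = j then (i ! : ℂ) else 0 := by
  refine ⟨gm, isProb, isOpenPos, integrable_mono, fun i j => ?_⟩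
  split_ifs with h
  · subst h
    exact integral_diag i
  · exact integral_off h

end Pool.Agent.Helper16.Griff
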