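import Mathlib

namespace Pool.Agent.Helper16.Griff

open Matrix
open scoped Nat

/-- Cholesky factor of the Jacobi matrix of the Laguerre polynomials. -/
noncomputable def lmat (N : ℕ) : Matrix (Fin (N + 1)) (Fin (N + 1)) ℝ := fun a b =>
  if (b : ℕ) = a then Real.sqrt (a + 1) else if (b : ℕ) + 1 = a then Real.sqrt a else 0

/-- The Jacobi matrix. -/
noncomputable def tmat (N : ℕ) : Matrix (Fin (N + 1)) (Fin (N + 1)) ℝ := lmat N * (lmat N)ᴴ

/-- The moment vector. -/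
noncomputable def mvec (N i : ℕ) : Fin (N + 1) → ℝ := fun k => (i ! : ℝ) * (i.choose k : ℝ)

theorem lmat_mulVec (N : ℕ) (u : ℕ → ℝ) (a : Fin (N + 1)) :
    (lmat N).mulVec (fun b => u b) a =
      Real.sqrt ((a : ℕ) + 1) * u a + (if (a : ℕ) = 0 then 0 else Real.sqrt (a : ℕ) * u (a - 1)) := by
  have ha := a.2
  simp only [Matrix.mulVec, dotProduct, lmat]
  have h1 : ∀ b : Fin (N + 1), ((if (b : ℕ) = a then Real.sqrt ((a : ℕ) + 1) else
      if (b : ℕ) + 1 = a then Real.sqrt (a : ℕ) else 0) * u b) =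
      (fun b : ℕ => (if b = (a : ℕ) then Real.sqrt ((a : ℕ) + 1) * u b else 0) +
        (if b + 1 = (a : ℕ) then Real.sqrt (a : ℕ) * u b else 0)) (b : ℕ) := by
    intro b
    simp only
    split_ifs with h h' <;> first | omega | simp
  rw [Finset.sum_congr rfl (fun b _ => h1 b), Fin.sum_univ_eq_sum_range
    (fun b : ℕ => (if b = (a : ℕ) then Real.sqrt ((a : ℕ) + 1) * u b else 0) +
        (if b + 1 = (a : ℕ) then Real.sqrt (a : ℕ) * u b else 0)), Finset.sum_add_distrib,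
    Finset.sum_ite_eq', if_pos (Finset.mem_range.2 ha)]
  congr 1
  split_ifs with h0
  · apply Finset.sum_eq_zero
    intro b _
    rw [if_neg (by omega)]
  · rw [Finset.sum_eq_single ((a : ℕ) - 1)]
    · rw [if_pos (by omega)]
    · intro b _ hb
      rw [if_neg (by omega)]
    · intro h
      exact absurd (Finset.mem_range.2 (by omega)) h

theorem lmatT_mulVec (N : ℕ) (v : ℕ → ℝ) (hv : v (N + 1) = 0) (b : Fin (N + 1)) :
    ((lmat N)ᴴ).mulVec (fun a => v a) b = Real.sqrt ((b : ℕ) + 1) * (v b + v (b + 1)) := by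
  have hb := b.2
  simp only [Matrix.mulVec, dotProduct, conjTranspose_apply, lmat, star_trivial]
  have h1 : ∀ a : Fin (N + 1), ((if (b : ℕ) = a then Real.sqrt ((a : ℕ) + 1) else
      if (b : ℕ) + 1 = a then Real.sqrt (a : ℕ) else 0) * v a) =
      (fun a : ℕ => (if a = (b : ℕ) then Real.sqrt ((b : ℕ) + 1) * v b else 0) +
        (if a = (b : ℕ) + 1 then Real.sqrt ((b : ℕ) + 1) * v (b + 1) else 0)) (a : ℕ) := by
    intro a
    simp only
    by_cases h : (b : ℕ) = a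
    · rw [if_pos h, if_pos h.symm, if_neg (by omega), h, add_zero]
    · rw [if_neg h, if_neg (show ¬ (a : ℕ) = b from fun h' => h h'.symm)]
      by_cases h' : (b : ℕ) + 1 = a
      · rw [if_pos h', if_pos h'.symm, zero_add, ← h']
        push_cast
        ring
      · rw [if_neg h', if_neg (show ¬ (a : ℕ) = b + 1 from fun h'' => h' h''.symm)]
        ring
  rw [Finset.sum_congr rfl (fun b _ => h1 b), Fin.sum_univ_eq_sum_range
    (fun a : ℕ => (if a = (b : ℕ) then Real.sqrt ((b : ℕ) + 1) * v b else 0) +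
        (if a = (b : ℕ) + 1 then Real.sqrt ((b : ℕ) + 1) * v (b + 1) else 0)),
    Finset.sum_add_distrib, Finset.sum_ite_eq', Finset.sum_ite_eq',
    if_pos (Finset.mem_range.2 hb)]
  split_ifs with h
  · ring
  · have h2 : (b : ℕ) = N := by
      rw [Finset.mem_range] at h
      omega
    rw [h2, hv]
    ring

theorem tmat_mvec (N i : ℕ) (hi : i ≤ N) : (tmat N).mulVec (mvec N i) = mvec N (i + 1) := by
  have h1 : ((lmat N)ᴴ).mulVec (mvec N i) =
      fun b : Fin (N + 1) => (fun b : ℕ => Real.sqrt ((b : ℕ) + 1) *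
        ((i ! : ℝ) * ((i + 1).choose (b + 1) : ℝ))) b := by
    funext b
    refine (lmatT_mulVec N (fun k => (i ! : ℝ) * (i.choose k : ℝ))
      (by rw [Nat.choose_eq_zero_of_lt (by omega)]; simp) b).trans ?_
    simp only
    rw [Nat.choose_succ_succ]
    push_cast
    ring
  funext a
  rw [tmat, ← Matrix.mulVec_mulVec, h1, lmat_mulVec N (fun b : ℕ => Real.sqrt ((b : ℕ) + 1) *
        ((i ! : ℝ) * ((i + 1).choose (b + 1) : ℝ)))]
  simp only [mvec]
  have hs : ∀ x : ℕ, Real.sqrt ((x : ℝ) + 1) * Real.sqrt ((x : ℝ) + 1) = (x : ℝ) + 1 := fun x =>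
    Real.mul_self_sqrt (by positivity)
  have hch : ∀ k : ℕ, ((k : ℝ) + 1) * ((i + 1).choose (k + 1) : ℝ)
      = ((i : ℝ) + 1) * (i.choose k : ℝ) := by
    intro k
    have := Nat.add_one_mul_choose_eq i k
    have h2 : ((i + 1 : ℕ) : ℝ) * (i.choose k : ℝ) = ((i + 1).choose (k + 1) : ℝ) * ((k + 1 : ℕ) : ℝ) := by
      exact_mod_cast this
    push_cast at h2
    linarith
  rcases Nat.eq_zero_or_pos (a : ℕ) with h0 | h0
  · rw [h0, if_pos rfl]
    simp only [Nat.cast_zero, zero_add, Real.sqrt_one, one_mul, Nat.choose_one_right,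
      Nat.choose_zero_right, add_zero, mul_one, Nat.factorial_succ]
    push_cast
    ring
  · obtain ⟨k, hk⟩ : ∃ k, (a : ℕ) = k + 1 := ⟨a - 1, by omega⟩
    rw [hk, if_neg (by omega), Nat.add_sub_cancel]
    push_cast
    have e1 := hs (k + 1)
    push_cast at e1
    have e2 := hch (k + 1)
    push_cast at e2
    calc Real.sqrt ((k : ℝ) + 1 + 1) * (Real.sqrt ((k : ℝ) + 1 + 1) *
          ((i ! : ℝ) * ((i + 1).choose (k + 1 + 1) : ℝ))) +
        Real.sqrt ((k : ℝ) + 1) * (Real.sqrt ((k : ℝ) + 1) * ((i ! : ℝ) * ((i + 1).choose (k + 1) : ℝ)))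
        = (Real.sqrt ((k : ℝ) + 1 + 1) * Real.sqrt ((k : ℝ) + 1 + 1)) *
          ((i ! : ℝ) * ((i + 1).choose (k + 1 + 1) : ℝ)) +
          (Real.sqrt ((k : ℝ) + 1) * Real.sqrt ((k : ℝ) + 1)) *
          ((i ! : ℝ) * ((i + 1).choose (k + 1) : ℝ)) := by ring
      _ = (i ! : ℝ) * (((k : ℝ) + 1 + 1) * ((i + 1).choose (k + 1 + 1) : ℝ)) +
          (i ! : ℝ) * (((k : ℝ) + 1) * ((i + 1).choose (k + 1) : ℝ)) := by rw [e1, hs k]; ring
      _ = (i ! : ℝ) * (((i : ℝ) + 1) * (i.choose (k + 1) : ℝ)) +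
          (i ! : ℝ) * (((i : ℝ) + 1) * (i.choose k : ℝ)) := by rw [e2, hch k]
      _ = ((i + 1) ! : ℝ) * ((i + 1).choose (k + 1) : ℝ) := by
          rw [Nat.choose_succ_succ, Nat.factorial_succ]
          push_cast
          ring

theorem tmat_pow (N i : ℕ) (hi : i ≤ N) :
    ((tmat N) ^ i).mulVec (Pi.single 0 1) = mvec N i := by
  induction i with
  | zero =>
    rw [pow_zero, Matrix.one_mulVec]
    funext k
    simp only [mvec, Nat.factorial_zero, Nat.cast_one, one_mul]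
    refine Fin.cases ?_ (fun k => ?_) k
    · simp
    · simp
  | succ i ih =>
    rw [pow_succ', ← Matrix.mulVec_mulVec, ih (by omega), tmat_mvec N i (by omega)]

/-- Radial nodes. -/
theorem exists_radial (N : ℕ) : ∃ (w ρ : Fin (N + 1) → ℝ), (∀ s, 0 ≤ w s) ∧ (∀ s, 0 ≤ ρ s) ∧
    ∀ i : ℕ, i ≤ N → ∑ s, w s * ρ s ^ i = (i ! : ℝ) := by
  have hps : (tmat N).PosSemidef := posSemidef_self_mul_conjTranspose (lmat N)
  have hH : (tmat N).IsHermitian := hps.isHermitian
  refine ⟨fun s => ((hH.eigenvectorUnitary : Matrix (Fin (N + 1)) (Fin (N + 1)) ℝ) 0 s) ^ 2, hH.eigenvalues,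
    fun s => sq_nonneg _, fun s => hps.eigenvalues_nonneg s, fun i hi => ?_⟩
  have h1 : ((tmat N) ^ i) 0 0 = (i ! : ℝ) := by
    have := congrFun (tmat_pow N i hi) 0
    rw [Matrix.mulVec_single_one] at this
    simpa [mvec] using this
  have h2 : (tmat N) ^ i = (hH.eigenvectorUnitary : Matrix _ _ ℝ) *
      (diagonal (fun s => hH.eigenvalues s ^ i)) * star (hH.eigenvectorUnitary : Matrix _ _ ℝ) := by
    have h3 := hH.spectral_theorem
    have h4 : (tmat N) ^ i = Unitary.conjStarAlgAut ℝ _ hH.eigenvectorUnitary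
        ((diagonal (RCLike.ofReal ∘ hH.eigenvalues)) ^ i) := by
      rw [map_pow, ← h3]
    rw [h4, Matrix.diagonal_pow, Unitary.conjStarAlgAut_apply]
    rfl
  rw [← h1, h2, Matrix.mul_apply]
  refine Finset.sum_congr rfl fun s _ => ?_
  rw [Matrix.mul_diagonal, Matrix.star_apply, star_trivial]
  ring

theorem exists_gaussian_nodes (N : ℕ) : ∃ (ι : Type) (_ : Fintype ι) (w : ι → ℝ) (z : ι → ℂ),
    (∀ s, 0 ≤ w s) ∧ ∀ i j : ℕ, i ≤ N → j ≤ N →
      ∑ s, (w s : ℂ) * (star (z s) ^ i * z s ^ j) = if i = j then (i ! : ℂ) else 0 := by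
  obtain ⟨w, ρ, hw, hρ, hm⟩ := exists_radial N
  set ζ : ℂ := Complex.exp (2 * Real.pi * Complex.I / ((N + 1 : ℕ) : ℂ)) with hζ
  have hprim : IsPrimitiveRoot ζ (N + 1) := Complex.isPrimitiveRoot_exp (N + 1) (by omega)
  have hζ1 : star ζ * ζ = 1 := by
    have h := hprim.norm'_eq_one (by omega)
    rw [Complex.star_def, ← Complex.normSq_eq_conj_mul_self, Complex.normSq_eq_norm_sq, h]
    simp
  refine ⟨Fin (N + 1) × Fin (N + 1), inferInstance, fun p => w p.1 / (N + 1),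
    fun p => (Real.sqrt (ρ p.1) : ℂ) * ζ ^ (p.2 : ℕ), fun p => div_nonneg (hw _) (by positivity),
    fun i j hi hj => ?_⟩
  have key : ∑ k : Fin (N + 1), (star ζ ^ i * ζ ^ j) ^ (k : ℕ) =
      if i = j then ((N + 1 : ℕ) : ℂ) else 0 := by
    split_ifs with hij
    · subst hij
      rw [← mul_pow, hζ1]
      simp
    · rw [Fin.sum_univ_eq_sum_range (fun k : ℕ => (star ζ ^ i * ζ ^ j) ^ k)]
      have hne : star ζ ^ i * ζ ^ j ≠ 1 := by
        intro h
        apply hij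
        apply hprim.pow_inj (by omega) (by omega)
        calc ζ ^ i = ζ ^ i * (star ζ ^ i * ζ ^ j) := by rw [h, mul_one]
          _ = (star ζ * ζ) ^ i * ζ ^ j := by rw [mul_pow]; ring
          _ = ζ ^ j := by rw [hζ1, one_pow, one_mul]
      rw [geom_sum_eq hne]
      have h1 : (star ζ ^ i * ζ ^ j) ^ (N + 1) = 1 := by
        rw [mul_pow, ← pow_mul, ← pow_mul, mul_comm i, mul_comm j, pow_mul, pow_mul,
          hprim.pow_eq_one, ← star_pow, hprim.pow_eq_one]
        simp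
      rw [h1, sub_self, zero_div]
  have hN : ((N : ℂ) + 1) ≠ 0 := by exact_mod_cast Nat.succ_ne_zero N
  have hterm : ∀ p : Fin (N + 1) × Fin (N + 1), (((w p.1 / (N + 1) : ℝ)) : ℂ) *
      (star ((Real.sqrt (ρ p.1) : ℂ) * ζ ^ (p.2 : ℕ)) ^ i *
        ((Real.sqrt (ρ p.1) : ℂ) * ζ ^ (p.2 : ℕ)) ^ j) =
      ((w p.1 : ℂ) / (N + 1) * (Real.sqrt (ρ p.1) : ℂ) ^ (i + j)) *
        (star ζ ^ i * ζ ^ j) ^ (p.2 : ℕ) := by
    intro p
    have h1 : star (Real.sqrt (ρ p.1) : ℂ) = (Real.sqrt (ρ p.1) : ℂ) := Complex.conj_ofReal _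
    rw [star_mul', star_pow, h1]
    push_cast
    rw [mul_pow, mul_pow, mul_pow, pow_add, ← pow_mul, ← pow_mul, ← pow_mul, ← pow_mul,
      mul_comm i, mul_comm j]
    ring
  rw [Finset.sum_congr rfl (fun p _ => hterm p), Fintype.sum_prod_type]
  simp only
  simp_rw [← Finset.mul_sum]
  rw [key]
  split_ifs with hij
  · subst hij
    have h2 := hm i hi
    have h3 : ∀ s, (w s : ℂ) / (N + 1) * (Real.sqrt (ρ s) : ℂ) ^ (i + i) * ((N + 1 : ℕ) : ℂ)
        = ((w s * ρ s ^ i : ℝ) : ℂ) := by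
      intro s
      have h4 : (Real.sqrt (ρ s) : ℂ) ^ (i + i) = ((ρ s ^ i : ℝ) : ℂ) := by
        rw [← two_mul, pow_mul, ← Complex.ofReal_pow, Real.sq_sqrt (hρ s), Complex.ofReal_pow]
      rw [h4]
      push_cast
      field_simp
    rw [Finset.sum_congr rfl (fun s _ => h3 s), ← Complex.ofReal_sum, h2]
    simp
  · simp

end Pool.Agent.Helper16.Griff
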